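import Pool.Agent.Helper36_X1.Stmts1

/-!
# Squad X1, module SYL
-/

set_option autoImplicit false

open scoped BigOperators

noncomputable section

namespace Pool.Agent.PP.X1.H18

open Pool.Agent.PP.X1 RGD

/-- the negative of a root is a root -/
theorem neg_mem (hO : OrbStmt) {ℓ : ℕ} {G : Type} [Group G] (R : RGD ℓ G) {b : R.E}
    (hb : b ∈ R.Φ) : -b ∈ R.Φ := by
  obtain ⟨w, i, c, hc, rfl, hci⟩ := hO ℓ G R b hb
  have h1 : -(c • R.sw w (R.a i)) = R.sw w (R.s i (c • R.a i)) := by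
    rw [R.s_smul, R.s_self, smul_neg, R.sw_neg, R.sw_smul]
  rw [h1]
  exact R.sw_mem (R.s_mem hci)

/-- `V` is contained in a conjugate of `U` -/
theorem V_conj (hL : LngStmt) (hO : OrbStmt) {ℓ : ℕ} {G : Type} [Group G] (R : RGD ℓ G) :
    ∃ g : G, ∀ x ∈ R.V, g * x * g⁻¹ ∈ R.U := by
  obtain ⟨-, w, -, hw⟩ := hL ℓ G R Finset.univ
  refine ⟨R.nw w, ?_⟩
  have h1 : R.V ≤ (R.U).comap (MulAut.conj (R.nw w)).toMonoidHom := by
    apply R.gp_le
    intro b hb y hy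
    rw [Subgroup.mem_comap]
    show R.nw w * y * (R.nw w)⁻¹ ∈ _
    have h2 := (R.X_nw (w := w) hb.1).mpr hy
    refine R.X_le_U ?_ h2
    have h3 : -b ∈ R.pos ∩ R.lev Finset.univ := by
      refine ⟨⟨neg_mem hO R hb.1, hb.2⟩, neg_mem hO R hb.1, ?_⟩
      obtain ⟨k, -, hk⟩ := hb.2
      rw [hk]
      refine Submodule.sum_mem _ fun i _ => Submodule.smul_mem _ _ ?_
      exact Submodule.subset_span ⟨i, by simp, rfl⟩
    have h4 := (hw _ h3).2
    rw [R.sw_neg, neg_neg] at h4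
    exact ⟨R.sw_mem hb.1, h4⟩
  exact fun x hx => h1 hx

/-- SYL -/
theorem syl (hL : LngStmt) (hO : OrbStmt) (hD : DscStmt) (hW : WrdStmt) (hU : UpgStmt)
    (hC : CloStmt) (hB : BruhStmt) : SylStmt := by
  intro ℓ hℓ G _ _ R
  have c1 : IsPGroup ℓ R.U := hU ℓ G R R.pos (hC ℓ G R).1 subset_rfl
  have c3 : ∀ g, (∀ x ∈ R.U, g * x * g⁻¹ ∈ R.U) → g ∈ R.B := by
    intro g hg
    obtain ⟨-, h2, h3, -, -, -⟩ := hB ℓ G R
    obtain ⟨w, -, b, hb, b', hb', rfl⟩ := h2 Finset.univ g (by rw [h3]; exact Subgroup.mem_top g)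
    have hn : ∀ x ∈ R.U, R.nw w * x * (R.nw w)⁻¹ ∈ R.U := by
      intro x hx
      have h4 := R.B_U (R.B.inv_mem hb') hx
      have h5 := R.B_U (R.B.inv_mem hb) (hg _ h4)
      have h6 : b⁻¹ * (b * R.nw w * b' * (b'⁻¹ * x * b'⁻¹⁻¹) * (b * R.nw w * b')⁻¹) * b⁻¹⁻¹ =
          R.nw w * x * (R.nw w)⁻¹ := by group
      rwa [h6] at h5
    have ht : ∀ x, R.sw w x = x := by
      by_contra hcon
      rw [not_forall] at hcon
      obtain ⟨⟨i, hi⟩, -⟩ := hD ℓ G R w hcon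
      apply R.nt i
      rw [eq_bot_iff]
      intro x hx
      rw [Subgroup.mem_bot]
      have h7 := hn x (R.X_le_U (R.a_pos i) hx)
      have h8 := R.X_le_V hi ((R.X_nw (w := w) (R.mem i)).mpr hx)
      have h9 : R.nw w * x * (R.nw w)⁻¹ ∈ R.U ⊓ R.V := ⟨h7, h8⟩
      rw [R.U_inf_V, Subgroup.mem_bot] at h9
      have h10 : x = (R.nw w)⁻¹ * (R.nw w * x * (R.nw w)⁻¹) * R.nw w := by group
      rw [h10, h9]
      group
    have h11 := (hW ℓ G R).2.1 w [] (fun x => by rw [ht x, R.sw_nil])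
    rw [R.nw_nil, inv_one, one_mul] at h11
    exact R.B.mul_mem (R.B.mul_mem hb (R.T_le_B h11)) hb'
  have hTp : ∀ t ∈ R.T, (∃ n : ℕ, t ^ ℓ ^ n = 1) → t = 1 := by
    intro t ht ⟨n, hn⟩
    rw [← orderOf_eq_one_iff]
    obtain ⟨k, -, hk⟩ := (Nat.dvd_prime_pow hℓ.out).mp (orderOf_dvd_of_pow_eq_one hn)
    have h1 : orderOf (⟨t, ht⟩ : R.T) ∣ Nat.card R.T := orderOf_dvd_natCard _
    rw [Subgroup.orderOf_mk, hk] at h1
    rw [hk]
    rcases k with _ | k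
    · rfl
    · exact absurd ((dvd_pow_self ℓ k.succ_ne_zero).trans h1) R.cop
  have hP : ∀ P : Sylow ℓ G, R.U ≤ P → (P : Subgroup G) ≤ R.U := by
    intro P hUP
    have hnc : NormalizerCondition P :=
      have := P.isPGroup'.isNilpotent
      Group.normalizerCondition_of_isNilpotent
    by_contra hcon
    have h1 : R.U.subgroupOf P < ⊤ := by
      rw [lt_top_iff_ne_top]
      intro h2
      apply hcon
      rwa [Subgroup.subgroupOf_eq_top] at h2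
    obtain ⟨-, h2⟩ := (SetLike.lt_iff_le_and_exists.mp (hnc _ h1))
    obtain ⟨x, hx, hx'⟩ := h2
    apply hx'
    rw [Subgroup.mem_subgroupOf]
    have h3 : (x : G) ∈ R.B := by
      apply c3
      intro y hy
      have h4 := (Subgroup.mem_normalizer_iff.mp hx ⟨y, hUP hy⟩).mp hy
      exact h4
    obtain ⟨u, hu, t, ht, hut⟩ := R.mem_B.mp h3
    have h5 : t ∈ (P : Subgroup G) := by
      have : t = u⁻¹ * (x : G) := by rw [hut]; group
      rw [this]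
      exact P.mul_mem (P.inv_mem (hUP hu)) x.2
    obtain ⟨n, hn⟩ := P.isPGroup' ⟨t, h5⟩
    have h6 := hTp t ht ⟨n, congrArg Subtype.val hn⟩
    rw [hut, h6, mul_one]
    exact hu
  obtain ⟨P₀, hP₀⟩ := c1.exists_le_sylow
  have hPU : (P₀ : Subgroup G) = R.U := le_antisymm (hP P₀ hP₀) hP₀
  refine ⟨c1, ?_, c3, ?_, ?_⟩
  · rw [← hPU]
    exact P₀.not_dvd_index
  · rw [eq_bot_iff]
    rintro v ⟨hv1, hv2⟩
    obtain ⟨u, hu, t, ht, rfl⟩ := R.mem_B.mp hv1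
    have h1 : u ∈ R.U ⊓ (R.T ⊔ R.V) := by
      refine ⟨hu, ?_⟩
      have : u = u * t * t⁻¹ := by group
      rw [this]
      exact Subgroup.mul_mem _ (Subgroup.mem_sup_right hv2)
        (Subgroup.mem_sup_left (R.T.inv_mem ht))
    rw [R.UV, Subgroup.mem_bot] at h1
    rw [h1, one_mul] at hv2 ⊢
    rw [Subgroup.mem_bot]
    obtain ⟨g, hg⟩ := V_conj hL hO R
    obtain ⟨n, hn⟩ := c1 ⟨g * t * g⁻¹, hg t hv2⟩
    have hn' : (g * t * g⁻¹) ^ ℓ ^ n = 1 := congrArg Subtype.val hn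
    rw [conj_pow] at hn'
    refine hTp t ht ⟨n, ?_⟩
    have h2 : t ^ ℓ ^ n = g⁻¹ * (g * t ^ ℓ ^ n * g⁻¹) * g := by group
    rw [h2, hn']
    group
  · intro Q hQ
    obtain ⟨P, hQP⟩ := hQ.exists_le_sylow
    obtain ⟨g, hg⟩ := MulAction.exists_smul_eq G P P₀
    refine ⟨g, fun x hx => ?_⟩
    rw [← hPU, ← hg, Sylow.coe_subgroup_smul, Subgroup.mem_pointwise_smul_iff_inv_smul_mem]
    show (MulAut.conj g)⁻¹ • (g * x * g⁻¹) ∈ (P : Subgroup G)
    rw [← map_inv, MulAut.smul_def, MulAut.conj_apply, inv_inv]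
    have : g⁻¹ * (g * x * g⁻¹) * g = x := by group
    rw [this]
    exact hQP hx

end Pool.Agent.PP.X1.H18
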